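import Pool.Agent.Y709.Kum.Stm
import Mathlib.RingTheory.Frobenius

/-!
# Residue degrees of unramified points of coverings of Kummer type
-/

set_option autoImplicit false

open Polynomial Module Pool.Agent.Y709

namespace Pool.Agent.Y153.Kum

theorem frob_order {K L : Type} [Field K] [Finite K] [Field L] [Finite L] [Algebra K L]
    (l : L ≃ₐ[K] L) (h : ∀ x, l x = x ^ Nat.card K) : orderOf l = Module.finrank K L := by
  classical
  have := Fintype.ofFinite K
  have hl : l = FiniteField.frobeniusAlgEquivOfAlgebraic K L := by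
    ext x
    rw [h x, FiniteField.coe_frobeniusAlgEquivOfAlgebraic, Nat.card_eq_fintype_card]
  rw [hl, FiniteField.orderOf_frobeniusAlgEquivOfAlgebraic]

attribute [local instance] Ideal.Quotient.field in
/-- The order of the Frobenius element. -/
theorem order_frob {R O : Type} [CommRing R] [CommRing O] [Algebra R O] (Γ : Type) [Group Γ]
    [Finite Γ] [MulSemiringAction Γ O] [SMulCommClass Γ R O] (𝔪 : Ideal O) [𝔪.IsMaximal]
    [(𝔪.under R).IsMaximal] [Finite (R ⧸ 𝔪.under R)] [Finite (O ⧸ 𝔪)]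
    (hin : 𝔪.inertia Γ = ⊥) (φ : Γ) (hφ : IsArithFrobAt R φ 𝔪) :
    orderOf φ = 𝔪.inertiaDeg R := by
  have hφS := hφ.mem_stabilizer
  set St := Ideal.Quotient.stabilizerHom 𝔪 (𝔪.under R) Γ with hSt
  have hinj : Function.Injective St := by
    rw [injective_iff_map_eq_one]
    intro σ hσ
    have h1 : (σ : Γ) ∈ (MonoidHom.ker St).map (Subgroup.subtype _) := ⟨σ, hσ, rfl⟩
    rw [Ideal.Quotient.map_ker_stabilizer_subtype, hin, Subgroup.mem_bot] at h1
    exact Subtype.ext h1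
  have h2 : orderOf (St ⟨φ, hφS⟩) = orderOf φ := by
    rw [orderOf_injective St hinj, Subgroup.orderOf_mk]
  rw [← h2, Ideal.inertiaDeg_eq_of_isMaximal (𝔪.under R) 𝔪]
  refine frob_order (K := R ⧸ 𝔪.under R) (L := O ⧸ 𝔪) _ fun x => ?_
  obtain ⟨y, rfl⟩ := Ideal.Quotient.mk_surjective x
  exact hφ.mk_apply y

theorem kummerDegree : Kum.KummerDegree := by
  intro k _ _ O _ _ Γ _ _ _ _ p _ μ hμ hμk w g hwg hσ hP 𝔪 hin hw d hd
  have hm := Lay.under_isMaximal (k := k) Γ 𝔪
  have hm' := 𝔪.isMaximal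
  have h1 := Lay.finite_quot (k := k) Γ 𝔪
  have h2 : Finite (O ⧸ 𝔪.asIdeal) := Lay.finite_RO (k := k) Γ 𝔪
  have hc := IsGaloisGroup.commutes (G := Γ) (A := k[X]) (B := O)
  have hi := IsGaloisGroup.isInvariant (G := Γ) (A := k[X]) (B := O)
  have hpr := hm'.isPrime
  obtain ⟨φ, hφ⟩ := IsArithFrobAt.exists_of_isInvariant k[X] Γ 𝔪.asIdeal
  have hord := order_frob (R := k[X]) Γ 𝔪.asIdeal hin φ hφ
  have hcard : Nat.card (k[X] ⧸ 𝔪.asIdeal.under k[X]) = Nat.card k ^ d := by
    rw [hd]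
    exact Module.natCard_eq_pow_finrank
  set π := Ideal.Quotient.mk 𝔪.asIdeal with hπ
  obtain ⟨c, hc1⟩ := hσ φ
  set ι : k →+* O ⧸ 𝔪.asIdeal := (π.comp (algebraMap k[X] O)).comp C with hι
  have hιinj : Function.Injective ι := ι.injective
  have hπw : π w ≠ 0 := fun h => hw (Ideal.Quotient.eq_zero_iff_mem.1 h)
  -- the value of `c`
  have hq : 1 ≤ Nat.card k ^ d := Nat.one_le_pow _ _ Nat.card_pos
  have hμd : μ ∣ Nat.card k ^ d - 1 := hμk.trans (by
    simpa using Nat.sub_dvd_pow_sub_pow (Nat.card k) 1 d)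
  have hv : ι c = π (algebraMap k[X] O g) ^ ((Nat.card k ^ d - 1) / μ) := by
    have h3 : π (φ • w) = π w ^ (Nat.card k ^ d) := by
      rw [← hcard]
      exact hφ.mk_apply w
    rw [hc1, map_mul] at h3
    have h4 : π w ^ (Nat.card k ^ d) =
        (π (algebraMap k[X] O g)) ^ ((Nat.card k ^ d - 1) / μ) * π w := by
      rw [← hwg, map_pow, ← pow_mul, Nat.mul_div_cancel' hμd, ← pow_succ,
        Nat.sub_add_cancel hq]
    rw [h4] at h3
    have : IsDomain (O ⧸ 𝔪.asIdeal) := Ideal.Quotient.isDomain _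
    exact mul_right_cancel₀ hπw h3
  rw [← hv]
  have hpow : ∀ i : ℕ, φ ^ i • w = algebraMap k[X] O (C (c ^ i)) * w := by
    intro i
    induction i with
    | zero => simp
    | succ i ih =>
      rw [pow_succ', mul_smul, ih, smul_mul', smul_algebraMap, hc1, ← mul_assoc, ← map_mul,
        ← C_mul, ← pow_succ]
  have hstab : ∀ i : ℕ, φ ^ i ∈ MulAction.stabilizer Γ w ↔ orderOf (ι c) ∣ i := by
    intro i
    have hoc : orderOf (ι c) = orderOf c := orderOf_injective (ι : k →* O ⧸ 𝔪.asIdeal) hιinj c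
    rw [MulAction.mem_stabilizer_iff, hpow, hoc, orderOf_dvd_iff_pow_eq_one]
    constructor
    · intro h
      have h3 : ι (c ^ i) * π w = π w := by
        have h4 := congrArg π h
        rwa [map_mul] at h4
      have : IsDomain (O ⧸ 𝔪.asIdeal) := Ideal.Quotient.isDomain _
      have h5 : ι (c ^ i) = 1 := by
        apply mul_right_cancel₀ hπw
        rw [h3, one_mul]
      exact hιinj (h5.trans (map_one ι).symm)
    · intro h
      rw [h]
      simp
  set n := orderOf (ι c) with hn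
  have hn1 : n ∣ orderOf φ := (hstab _).1 (by
    rw [pow_orderOf_eq_one]
    exact Subgroup.one_mem _)
  have hφpos : 0 < orderOf φ := orderOf_pos φ
  have hn0 : n ≠ 0 := fun h => by
    rw [h, zero_dvd_iff] at hn1
    omega
  obtain ⟨e, he⟩ := hP ⟨φ ^ n, (hstab n).2 dvd_rfl⟩
  have he' : (φ ^ n) ^ (p ^ e) = 1 := congrArg Subtype.val he
  obtain ⟨m, -, hm2⟩ := (Nat.dvd_prime_pow (Fact.out : p.Prime)).1 (orderOf_dvd_of_pow_eq_one he')
  refine ⟨m, ?_⟩
  rw [← hord, ← hm2, orderOf_pow_of_dvd hn0 hn1, Nat.mul_div_cancel' hn1]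

end Pool.Agent.Y153.Kum
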